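import Pool.Agent.H43.PS.Targets

/-! Row SQR: psd square root. -/

set_option autoImplicit false

namespace H43.PS

open Matrix Finset

theorem SQR : T_SQR := by
  classical
  intro κ _ _ x hx
  have h := hx.isHermitian
  have e : star (h.eigenvectorUnitary : Matrix κ κ ℝ) =
      (h.eigenvectorUnitary : Matrix κ κ ℝ)ᵀ := by
    rw [Matrix.star_eq_conjTranspose, Matrix.conjTranspose_eq_transpose_of_trivial]
  have h1 : x = (h.eigenvectorUnitary : Matrix κ κ ℝ) * diagonal h.eigenvalues *
      (h.eigenvectorUnitary : Matrix κ κ ℝ)ᵀ := by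
    have h1 := h.spectral_theorem
    rw [Unitary.conjStarAlgAut_apply] at h1
    rw [← e]
    exact h1
  have h2 : (h.eigenvectorUnitary : Matrix κ κ ℝ)ᵀ * (h.eigenvectorUnitary : Matrix κ κ ℝ) = 1 := by
    rw [← e]
    exact Unitary.coe_star_mul_self h.eigenvectorUnitary
  have h3 : ∀ i, 0 ≤ h.eigenvalues i := fun i => hx.eigenvalues_nonneg i
  set V : Matrix κ κ ℝ := (h.eigenvectorUnitary : Matrix κ κ ℝ) with hV
  set lam := h.eigenvalues with hlam
  clear_value V lam
  refine ⟨V * diagonal (fun i => Real.sqrt (lam i)) * Vᵀ, ?_, ?_⟩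
  · have hd : (diagonal (fun i => Real.sqrt (lam i)) : Matrix κ κ ℝ).PosSemidef :=
      Matrix.PosSemidef.diagonal (fun i => Real.sqrt_nonneg _)
    have h4 := hd.mul_mul_conjTranspose_same V
    rw [Matrix.conjTranspose_eq_transpose_of_trivial] at h4
    exact h4
  · calc V * diagonal (fun i => Real.sqrt (lam i)) * Vᵀ *
          (V * diagonal (fun i => Real.sqrt (lam i)) * Vᵀ)
        = V * diagonal (fun i => Real.sqrt (lam i)) * (Vᵀ * V) *
            (diagonal (fun i => Real.sqrt (lam i)) * Vᵀ) := by
          simp only [Matrix.mul_assoc]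
      _ = V * (diagonal (fun i => Real.sqrt (lam i)) * diagonal (fun i => Real.sqrt (lam i))) *
            Vᵀ := by
          rw [h2, Matrix.mul_one]
          simp only [Matrix.mul_assoc]
      _ = V * diagonal lam * Vᵀ := by
          rw [Matrix.diagonal_mul_diagonal]
          have e2 : (fun i => Real.sqrt (lam i) * Real.sqrt (lam i)) = lam := by
            funext i
            exact Real.mul_self_sqrt (h3 i)
          rw [e2]
      _ = x := h1.symm

end H43.PS
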