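import Pool.Agent.H43.PS.Targets

/-! Row UNI: any orthogonal diagonalisation computes `fm`, `tf`. -/

set_option autoImplicit false

namespace H43.PS

open Matrix Finset

theorem uni_spec {κ : Type} [Fintype κ] [DecidableEq κ] {A : Matrix κ κ ℝ} (h : A.IsHermitian) :
    A = (h.eigenvectorUnitary : Matrix κ κ ℝ) * diagonal h.eigenvalues *
      (h.eigenvectorUnitary : Matrix κ κ ℝ)ᵀ ∧
    (h.eigenvectorUnitary : Matrix κ κ ℝ)ᵀ * (h.eigenvectorUnitary : Matrix κ κ ℝ) = 1 ∧
    (h.eigenvectorUnitary : Matrix κ κ ℝ) * (h.eigenvectorUnitary : Matrix κ κ ℝ)ᵀ = 1 := by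
  have e : star (h.eigenvectorUnitary : Matrix κ κ ℝ) =
      (h.eigenvectorUnitary : Matrix κ κ ℝ)ᵀ := by
    rw [Matrix.star_eq_conjTranspose, Matrix.conjTranspose_eq_transpose_of_trivial]
  refine ⟨?_, ?_, ?_⟩
  · have h1 := h.spectral_theorem
    rw [Unitary.conjStarAlgAut_apply] at h1
    rw [← e]
    exact h1
  · rw [← e]
    exact Unitary.coe_star_mul_self h.eigenvectorUnitary
  · rw [← e]
    exact Unitary.coe_mul_star_self h.eigenvectorUnitary

theorem UNI : T_UNI := by
  classical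
  intro κ _ _ U a A hU hA f
  have hU2 : U * Uᵀ = 1 := mul_eq_one_comm.1 hU
  have hH : A.IsHermitian := by
    show Aᴴ = A
    rw [Matrix.conjTranspose_eq_transpose_of_trivial, hA]
    simp [Matrix.transpose_mul, Matrix.mul_assoc, Matrix.diagonal_transpose]
  obtain ⟨h1, h2, h3⟩ := uni_spec hH
  have hfm : fm f A = (hH.eigenvectorUnitary : Matrix κ κ ℝ) *
      diagonal (fun i => f (hH.eigenvalues i)) *
      (hH.eigenvectorUnitary : Matrix κ κ ℝ)ᵀ := by
    unfold fm
    rw [dif_pos hH]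
  set V : Matrix κ κ ℝ := (hH.eigenvectorUnitary : Matrix κ κ ℝ) with hV
  set lam := hH.eigenvalues with hlam
  clear_value V lam
  -- the intertwining matrix
  have hW : diagonal lam * (Vᵀ * U) = (Vᵀ * U) * diagonal a := by
    have e1 : Vᵀ * A * U = diagonal lam * (Vᵀ * U) := by
      rw [h1]
      calc Vᵀ * (V * diagonal lam * Vᵀ) * U = (Vᵀ * V) * (diagonal lam * (Vᵀ * U)) := by
            simp only [Matrix.mul_assoc]
        _ = diagonal lam * (Vᵀ * U) := by rw [h2, Matrix.one_mul]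
    have e2 : Vᵀ * A * U = (Vᵀ * U) * diagonal a := by
      rw [hA]
      calc Vᵀ * (U * diagonal a * Uᵀ) * U = (Vᵀ * U) * diagonal a * (Uᵀ * U) := by
            simp only [Matrix.mul_assoc]
        _ = (Vᵀ * U) * diagonal a := by rw [hU, Matrix.mul_one]
    rw [← e1, e2]
  have hWf : diagonal (fun i => f (lam i)) * (Vᵀ * U) =
      (Vᵀ * U) * diagonal (fun i => f (a i)) := by
    ext i j
    have e := congrFun (congrFun hW i) j
    rw [Matrix.diagonal_mul, Matrix.mul_diagonal] at e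
    rw [Matrix.diagonal_mul, Matrix.mul_diagonal]
    by_cases h0 : (Vᵀ * U) i j = 0
    · rw [h0, mul_zero, zero_mul]
    · have e2 : lam i = a j := by
        rw [mul_comm] at e
        exact mul_left_cancel₀ h0 e
      rw [e2, mul_comm]
  have hmain : fm f A = U * diagonal (fun i => f (a i)) * Uᵀ := by
    rw [hfm]
    calc V * diagonal (fun i => f (lam i)) * Vᵀ
        = V * diagonal (fun i => f (lam i)) * Vᵀ * (U * Uᵀ) := by rw [hU2, Matrix.mul_one]
      _ = V * (diagonal (fun i => f (lam i)) * (Vᵀ * U)) * Uᵀ := by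
          simp only [Matrix.mul_assoc]
      _ = V * ((Vᵀ * U) * diagonal (fun i => f (a i))) * Uᵀ := by rw [hWf]
      _ = (V * Vᵀ) * (U * diagonal (fun i => f (a i)) * Uᵀ) := by
          simp only [Matrix.mul_assoc]
      _ = U * diagonal (fun i => f (a i)) * Uᵀ := by rw [h3, Matrix.one_mul]
  refine ⟨hmain, ?_⟩
  unfold tf
  rw [hmain, Matrix.trace_mul_comm, ← Matrix.mul_assoc, hU, Matrix.one_mul, Matrix.trace_diagonal]

end H43.PS
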